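import Mathlib
import Pool.Agent.H81.Kuper
import Pool.Agent.H81.Unstable

namespace Pool.Agent.Results.MP_a217de_gt.Polyhedron

open Topology

/-- A continuum: a compact connected metrizable space. -/
def IsContinuum (X : Type) [TopologicalSpace X] : Prop :=
  CompactSpace X ∧ ConnectedSpace X ∧ TopologicalSpace.MetrizableSpace X

/-- `p` is `C_a`-unstable in `M` for some nondegenerate continuum `C` and some `a ∈ C`. -/
def PseudoUnstable (M : Type) [TopologicalSpace M] (p : M) : Prop :=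
  ∃ (C : Type) (_ : TopologicalSpace C) (a : C), IsContinuum C ∧ Nontrivial C ∧
    ∃ F : M × C → M, Continuous F ∧ (∀ z, F (z, a) = z) ∧ ∀ z c, c ≠ a → F (z, c) ≠ p

/-- Some neighbourhood of `x` is homeomorphic to some neighbourhood of `y`, `x` going to `y`. -/
def LocallyHomeo {X Y : Type} [TopologicalSpace X] [TopologicalSpace Y] (x : X) (y : Y) : Prop :=
  ∃ (U : Set X) (V : Set Y) (hx : x ∈ U), U ∈ 𝓝 x ∧ V ∈ 𝓝 y ∧
    ∃ h : U ≃ₜ V, (h ⟨x, hx⟩ : Y) = y

/-- `X` is homeomorphic to the geometric realization (in barycentric coordinates) of the finite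
simplicial complex generated by a family `K` of vertex sets. -/
def IsPolyhedron (X : Type) [TopologicalSpace X] : Prop :=
  ∃ (n : ℕ) (K : Set (Finset (Fin n))),
    Nonempty (X ≃ₜ {x : Fin n → ℝ // x ∈ stdSimplex ℝ (Fin n) ∧ ∃ s ∈ K, ∀ i ∉ s, x i = 0})

open Pool.Agent.H81 Set

theorem cont {E : Type} [TopologicalSpace E] [TopologicalSpace.MetrizableSpace E] {S : Set E}
    (h1 : IsCompact S) (h2 : IsPreconnected S) (x : E) (hx : x ∈ S) : IsContinuum S :=
  ⟨isCompact_iff_compactSpace.1 h1, isConnected_iff_connectedSpace.1 ⟨⟨x, hx⟩, h2⟩, inferInstance⟩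

open Kuper in
theorem q1 : ∃ (X Y : Type) (_ : TopologicalSpace X) (_ : TopologicalSpace Y) (x : X) (y : Y),
    IsContinuum X ∧ IsContinuum Y ∧ LocallyHomeo x y ∧ PseudoUnstable X x ∧
      ¬ PseudoUnstable Y y := by
  refine ⟨X, Y, inferInstance, inferInstance, ⟨_, p_mem⟩, ⟨_, .inl p_mem⟩,
    cont X_compact X_conn _ p_mem, cont Y_compact Y_conn _ (.inl p_mem),
    ⟨univ, Subtype.val ⁻¹' X, mem_univ _, Filter.univ_mem, ?_,
      ⟨⟨fun u => ⟨⟨u.1.1, .inl u.1.2⟩, u.1.2⟩, fun v => ⟨⟨v.1.1, v.2⟩, mem_univ _⟩,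
        fun _ => rfl, fun _ => rfl⟩, by fun_prop, by fun_prop⟩, rfl⟩,
    ⟨W, inferInstance, ⟨1, W_one⟩, cont W_compact W_conn _ W_one,
      ⟨⟨1, W_one⟩, ⟨0, W_zero⟩, fun e => one_ne_zero (congrArg Subtype.val e)⟩,
      fun w => ⟨(w.1.1.1, w.1.1.2 * w.2.1), w.1.2.1, W_mul w.1.2.2 w.2.2⟩, by fun_prop,
      fun z => Subtype.ext (Prod.ext rfl (mul_one _)), fun z c hc e => hc (Subtype.ext ?_)⟩, ?_⟩
  · have : ∀ᶠ q : Y in 𝓝 ⟨_, .inl p_mem⟩, q.1.1 < 1 :=
      ((continuous_fst.comp continuous_subtype_val).tendsto _).eventually (gt_mem_nhds one_pos)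
    filter_upwards [this] with q hq
    rcases q.2 with h | h
    · exact h
    · exact absurd h.1.1 (not_le.2 hq)
  · exact W_unit z.2.2 c.2 (congrArg (fun q : X => q.1.2) e)
  · rintro ⟨C, _, a, ⟨-, _, _⟩, _, F, h1, h2, h3⟩
    obtain ⟨z, c, hc, e⟩ := Y_stable a F h1 h2
    exact h3 z c hc e

open Unstable in
theorem q2 (X Y : Type) [TopologicalSpace X] [TopologicalSpace Y] (x : X) (y : Y)
    (hX : IsContinuum X) (hY : IsContinuum Y) (hP : IsPolyhedron X) (hl : LocallyHomeo x y)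
    (h : PseudoUnstable X x) : PseudoUnstable Y y := by
  obtain ⟨_, -, -⟩ := hX
  obtain ⟨_, -, _⟩ := hY
  obtain ⟨n, K, ⟨φ⟩⟩ := hP
  obtain ⟨U, V, hx, hU, hV, g, hg⟩ := hl
  obtain ⟨C, _, a, ⟨-, _, _⟩, _, F, h1, h2, h3⟩ := h
  let φ' : X ≃ₜ real K := φ
  have : CompactSpace (real K) := φ'.compactSpace
  obtain ⟨H, H1, H2, H3⟩ := glue (φ' x) (poly_push K (φ' x)
    (approx (φ' x) a (fun w => φ' (F (φ'.symm w.1, w.2))) (by fun_prop) (fun z => by simp [h2])
      fun z c hc e => h3 _ c hc (φ'.injective e)))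
  letI := TopologicalSpace.metrizableSpaceMetric Y
  obtain ⟨G, G1, G2, G3⟩ := localize x y (fun w => φ'.symm (H (φ' w.1, w.2))) (by fun_prop)
    (fun z => by simp [H2]) (fun z t ht e => H3 _ t ht (φ'.symm_apply_eq.1 e)) U V hU hV g
    fun _ => hg
  exact ⟨unitInterval, inferInstance, 0, ⟨inferInstance, inferInstance, inferInstance⟩,
    inferInstance, G, G1, G2, G3⟩

theorem result :
    ∀ (X Y : Type) [TopologicalSpace X] [TopologicalSpace Y] (x : X) (y : Y),
      IsContinuum X → IsContinuum Y → IsPolyhedron X → LocallyHomeo x y →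
        PseudoUnstable X x → PseudoUnstable Y y :=
  q2

end Pool.Agent.Results.MP_a217de_gt.Polyhedron
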